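import Pool.Agent.helper5.LDH.Spec

/-! Row ldh:KLZ: the sums of `n^(-ρ)` over `(N, b]` for `N ≥ T`. -/

set_option autoImplicit false

open Complex MeasureTheory

namespace Pool.Agent.LDH

open Pool.Agent.helper84.DM Pool.Agent.helper78.ED Pool.Agent.DH

theorem KLZ_log (n : ℕ) (hn : 1 ≤ n) :
    Real.log ((n + 1 : ℕ) : ℝ) - Real.log (n : ℝ) ≤ 1 / (n : ℝ) ∧
    1 / ((n : ℝ) + 1) ≤ Real.log ((n + 1 : ℕ) : ℝ) - Real.log (n : ℝ) := by
  have hn0 : (0 : ℝ) < n := by exact_mod_cast hn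
  have h1 : Real.log ((n + 1 : ℕ) : ℝ) - Real.log (n : ℝ) = Real.log (((n : ℝ) + 1) / n) := by
    rw [Real.log_div (by positivity) hn0.ne']; push_cast; rfl
  rw [h1]
  constructor
  · have := Real.log_le_sub_one_of_pos (show 0 < ((n : ℝ) + 1) / n by positivity)
    have h2 : ((n : ℝ) + 1) / n - 1 = 1 / n := by field_simp; ring
    linarith
  · have := Real.one_sub_inv_le_log_of_pos (show 0 < ((n : ℝ) + 1) / n by positivity)
    have h2 : 1 - (((n : ℝ) + 1) / n)⁻¹ = 1 / (n + 1) := by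
      rw [inv_div]; field_simp; ring
    linarith

theorem KLZ_mono (n : ℕ) (hn : 1 ≤ n) :
    Real.log ((n + 2 : ℕ) : ℝ) - Real.log ((n + 1 : ℕ) : ℝ) ≤
      Real.log ((n + 1 : ℕ) : ℝ) - Real.log (n : ℝ) := by
  have hn0 : (0 : ℝ) < n := by exact_mod_cast hn
  rw [← Real.log_div (by positivity) (by positivity), ← Real.log_div (by positivity) hn0.ne']
  apply Real.log_le_log (by positivity)
  rw [div_le_div_iff₀ (by positivity) hn0]
  push_cast
  nlinarith

theorem KLZ_var (v : ℕ → ℝ) (N b : ℕ) (hb : N ≤ b) (hv : ∀ n, N ≤ n → v (n + 1) ≤ v n) :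
    v b + ∑ n ∈ Finset.Ioo N b, (v n - v (n + 1)) ≤ v N := by
  induction b, hb using Nat.le_induction with
  | base => simp
  | succ b hb ih =>
    rcases eq_or_lt_of_le hb with h | h
    · subst h
      have : Finset.Ioo N (N + 1) = ∅ :=
        Finset.eq_empty_of_forall_notMem fun x hx => by have := Finset.mem_Ioo.mp hx; omega
      rw [this, Finset.sum_empty, add_zero]
      exact hv N le_rfl
    · have : Finset.Ioo N (b + 1) = insert b (Finset.Ioo N b) := by
        ext x; simp; omega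
      rw [this, Finset.sum_insert (by simp)]
      linarith

theorem KLZ (hKL : KL_stmt) (hABL : ABL_stmt) : KLZ_stmt := by
  refine ⟨8 * Real.pi, by positivity, ?_⟩
  intro T N b ρ hT hTN hNb hb2 hσ hσ1 hγ hγ2
  have hpi := Real.pi_gt_three
  have hN0 : (0 : ℝ) < N := by linarith
  have hN1 : 1 ≤ N := by
    have : (1 : ℝ) ≤ N := le_trans hT hTN
    exact_mod_cast this
  set σ := ρ.re with hσd
  set γ := ρ.im with hγd
  set f : ℕ → ℝ := fun n => -(γ / (2 * Real.pi)) * Real.log (n : ℝ) with hf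
  set l : ℝ := T / (4 * Real.pi * N) with hl
  have hl0 : 0 < l := by positivity
  have hlb : l ≤ 1 / (4 * Real.pi) := by
    rw [hl, div_le_div_iff₀ (by positivity) (by positivity)]
    nlinarith
  have h4pi : 1 / (4 * Real.pi) ≤ 1 / 12 := by
    apply one_div_le_one_div_of_le (by norm_num) (by linarith)
  have hγ0 : 0 ≤ γ / (2 * Real.pi) := by
    have : 0 ≤ γ := by linarith
    positivity
  have hdiff : ∀ n : ℕ, f (n + 1) - f n =
      -(γ / (2 * Real.pi) * (Real.log ((n + 1 : ℕ) : ℝ) - Real.log (n : ℝ))) := by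
    intro n; rw [hf]; ring
  have hexp : ∀ c : ℕ, N ≤ c → c ≤ b → ‖∑ n ∈ Finset.Ioc N c, ee (f n)‖ ≤ 8 * Real.pi * N / T := by
    intro c _ hcb
    have h1 := hKL f N c l (-1) hl0 (by linarith) ?_ ?_
    · have h2 : 2 / l = 8 * Real.pi * N / T := by
        rw [hl]; field_simp; ring
      rw [← h2]; exact h1
    · intro n hn hnc
      have hn1 : 1 ≤ n := by omega
      have hn0 : (0 : ℝ) < n := by exact_mod_cast hn1
      obtain ⟨a1, a2⟩ := KLZ_log n hn1
      rw [hdiff]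
      constructor
      · have e1 : γ / (2 * Real.pi) * (Real.log ((n + 1 : ℕ) : ℝ) - Real.log (n : ℝ)) ≤
            γ / (2 * Real.pi) * (1 / n) := mul_le_mul_of_nonneg_left a1 hγ0
        have e2 : γ / (2 * Real.pi) * (1 / n) ≤ 1 / Real.pi := by
          have e3 : (N : ℝ) ≤ n := by exact_mod_cast hn.le
          rw [div_mul_div_comm, mul_one, div_le_div_iff₀ (by positivity) (by positivity)]
          nlinarith [Real.pi_pos]
        have e4 : 1 / Real.pi ≤ 1 / 3 := one_div_le_one_div_of_le (by norm_num) hpi.le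
        rw [Int.cast_neg, Int.cast_one]
        linarith
      · have e1 : γ / (2 * Real.pi) * (1 / ((n : ℝ) + 1)) ≤
            γ / (2 * Real.pi) * (Real.log ((n + 1 : ℕ) : ℝ) - Real.log (n : ℝ)) :=
          mul_le_mul_of_nonneg_left a2 hγ0
        have e2 : l ≤ γ / (2 * Real.pi) * (1 / ((n : ℝ) + 1)) := by
          have e3 : (n : ℝ) + 1 ≤ 2 * N := by
            have : n + 1 ≤ 2 * N := by omega
            exact_mod_cast this
          rw [hl, div_mul_div_comm, mul_one, div_le_div_iff₀ (by positivity) (by positivity)]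
          have e5 : T * (2 * Real.pi * (↑n + 1)) ≤ γ * (2 * Real.pi * (↑n + 1)) :=
            mul_le_mul_of_nonneg_right hγ (by positivity)
          have e6 : γ * (2 * Real.pi * (↑n + 1)) ≤ γ * (2 * Real.pi * (2 * N)) := by
            apply mul_le_mul_of_nonneg_left _ (by linarith)
            apply mul_le_mul_of_nonneg_left e3 (by positivity)
          linarith
        rw [Int.cast_neg, Int.cast_one]
        linarith
    · left
      intro n hn _
      have hn1 : 1 ≤ n := by omega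
      rw [hdiff]
      have e0 : f (n + 2) - f (n + 1) =
          -(γ / (2 * Real.pi) * (Real.log ((n + 2 : ℕ) : ℝ) - Real.log ((n + 1 : ℕ) : ℝ))) := by
        rw [hf]; ring
      rw [e0]
      have e1 := KLZ_mono n hn1
      have e2 := mul_le_mul_of_nonneg_left e1 hγ0
      linarith
  have hv : ∀ n : ℕ, N ≤ n → ((n + 1 : ℕ) : ℝ) ^ (-σ) ≤ (n : ℝ) ^ (-σ) := by
    intro n hn
    have hn0 : (0 : ℝ) < n := by exact_mod_cast (lt_of_lt_of_le (by omega : 0 < N) hn)
    apply Real.rpow_le_rpow_of_nonpos hn0 (by push_cast; linarith) (by linarith)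
  have hM := hABL (fun n => (n : ℝ) ^ (-σ)) (fun n => ee (f n)) N b _ hNb hexp
  have hbd : |((b : ℝ)) ^ (-σ)| + ∑ n ∈ Finset.Ioo N b, |((n + 1 : ℕ) : ℝ) ^ (-σ) - (n : ℝ) ^ (-σ)| ≤
      (N : ℝ) ^ (-σ) := by
    have e1 : ∑ n ∈ Finset.Ioo N b, |((n + 1 : ℕ) : ℝ) ^ (-σ) - (n : ℝ) ^ (-σ)| =
        ∑ n ∈ Finset.Ioo N b, ((n : ℝ) ^ (-σ) - ((n + 1 : ℕ) : ℝ) ^ (-σ)) := by
      apply Finset.sum_congr rfl
      intro n hn
      have := hv n (Finset.mem_Ioo.mp hn).1.le
      rw [abs_of_nonpos (by linarith)]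
      ring
    rw [e1, abs_of_nonneg (Real.rpow_nonneg (Nat.cast_nonneg b) _)]
    exact KLZ_var (fun n => (n : ℝ) ^ (-σ)) N b hNb hv
  have hsum : ∑ n ∈ Finset.Ioc N b, (n : ℂ) ^ (-ρ) =
      ∑ n ∈ Finset.Ioc N b, (((n : ℝ) ^ (-σ) : ℝ) : ℂ) * ee (f n) := by
    apply Finset.sum_congr rfl
    intro n hn
    have hn1 : 1 ≤ n := by have := (Finset.mem_Ioc.mp hn).1; omega
    have hn0 : (0 : ℝ) < n := by exact_mod_cast hn1
    have hnc : (n : ℂ) ≠ 0 := by exact_mod_cast hn0.ne'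
    rw [Complex.cpow_def_of_ne_zero hnc, Real.rpow_def_of_pos hn0, Complex.ofReal_exp]
    unfold ee
    rw [← Complex.exp_add]
    congr 1
    rw [← Complex.natCast_log]
    have hρ : ρ = (σ : ℂ) + (γ : ℂ) * I := (Complex.re_add_im ρ).symm
    rw [hρ, hf]
    push_cast
    have hpi0 : (Real.pi : ℂ) ≠ 0 := by exact_mod_cast Real.pi_ne_zero
    field_simp
    ring
  rw [hsum]
  refine hM.trans ?_
  calc 8 * Real.pi * N / T * (|((b : ℝ)) ^ (-σ)| +
        ∑ n ∈ Finset.Ioo N b, |((n + 1 : ℕ) : ℝ) ^ (-σ) - (n : ℝ) ^ (-σ)|) ≤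
      8 * Real.pi * N / T * (N : ℝ) ^ (-σ) := mul_le_mul_of_nonneg_left hbd (by positivity)
    _ = 8 * Real.pi * ((N : ℝ) ^ (1 - σ) / T) := by
      rw [sub_eq_add_neg, Real.rpow_add hN0, Real.rpow_one]
      ring

end Pool.Agent.LDH
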